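import Pool.Agent.TH308.LF.Det
import Pool.Agent.H940R3.Flow.Hartogs

set_option autoImplicit false

open scoped Topology ContDiff ComplexOrder ENNReal ComplexConjugate
open MeasureTheory Filter Metric Set Pool.Agent.Helper853

namespace Pool.Agent.TH308.LF

variable {n : ℕ}

/-- parabolic maximum principle -/
lemma parabolic {a : Fin n → ℂ} {R t0 t1 η : ℝ} (w : (Fin n → ℂ) → ℝ → ℝ) (ht : t0 < t1)
    (hc : ContinuousOn (fun p : (Fin n → ℂ) × ℝ => w p.1 p.2) (closedBall a R ×ˢ Icc t0 t1))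
    (h0 : ∀ z ∈ closedBall a R, w z t0 ≤ η)
    (hb : ∀ z ∈ sphere a R, ∀ t ∈ Icc t0 t1, w z t ≤ η)
    (hi : ∀ z ∈ ball a R, ∀ t ∈ Ioc t0 t1, IsLocalMax (fun y => w y t) z →
      ∃ d : ℝ, HasDerivAt (fun s => w z s) d t ∧ d ≤ 0)
    {z : Fin n → ℂ} (hz : z ∈ closedBall a R) {t : ℝ} (htt : t ∈ Icc t0 t1) : w z t ≤ η := by
  have key : ∀ δ : ℝ, 0 < δ → w z t - δ * (t - t0) ≤ η := by
    intro δ hδ
    by_contra hcon
    push Not at hcon
    have hKc : IsCompact (closedBall a R ×ˢ Icc t0 t1) := (isCompact_closedBall a R).prod isCompact_Icc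
    have hWc : ContinuousOn (fun p : (Fin n → ℂ) × ℝ => w p.1 p.2 - δ * (p.2 - t0))
        (closedBall a R ×ˢ Icc t0 t1) := hc.sub (by fun_prop)
    obtain ⟨⟨y, s⟩, ⟨hy, hs⟩, hmax⟩ := hKc.exists_isMaxOn ⟨(z, t), hz, htt⟩ hWc
    simp only at hy hs
    have hmax' : ∀ y' ∈ closedBall a R, ∀ s' ∈ Icc t0 t1,
        w y' s' - δ * (s' - t0) ≤ w y s - δ * (s - t0) := fun y' hy' s' hs' =>
      hmax (show ((y', s') : (Fin n → ℂ) × ℝ) ∈ _ from ⟨hy', hs'⟩)
    have hval : η < w y s - δ * (s - t0) := lt_of_lt_of_le hcon (hmax' z hz t htt)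
    have hs0 : t0 < s := by
      rcases lt_or_eq_of_le hs.1 with h | h
      · exact h
      · exfalso
        have := h0 y hy
        rw [← h] at hval
        simp at hval
        linarith
    have hyb : y ∈ ball a R := by
      by_contra hnb
      have hsph : y ∈ sphere a R := by
        rw [mem_sphere]
        rw [mem_closedBall] at hy
        rw [mem_ball, not_lt] at hnb
        exact le_antisymm hy hnb
      have h1 := hb y hsph s hs
      have h2 : 0 ≤ δ * (s - t0) := by
        apply mul_nonneg hδ.le; linarith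
      linarith
    have hloc : IsLocalMax (fun y' => w y' s) y := by
      have : ∀ᶠ y' in 𝓝 y, y' ∈ ball a R := isOpen_ball.mem_nhds hyb
      filter_upwards [this] with y' hy'
      have := hmax' y' (ball_subset_closedBall hy') s hs
      linarith
    obtain ⟨d, hd, hd0⟩ := hi y hyb s ⟨hs0, hs.2⟩ hloc
    have hslope : Tendsto (slope (fun s => w y s) s) (𝓝[<] s) (𝓝 d) := by
      have h1 := hasDerivAt_iff_tendsto_slope.mp hd
      exact h1.mono_left (nhdsWithin_mono _ fun x hx => ne_of_lt hx)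
    have hge : ∀ᶠ s' in 𝓝[<] s, δ ≤ slope (fun s => w y s) s s' := by
      have hIoo : Ioo t0 s ∈ 𝓝[<] s := Ioo_mem_nhdsLT hs0
      filter_upwards [hIoo] with s' hs'
      have h1 := hmax' y hy s' ⟨hs'.1.le, hs'.2.le.trans hs.2⟩
      rw [slope_comm, slope_def_field, le_div_iff₀ (by linarith [hs'.2])]
      linarith
    have := ge_of_tendsto hslope hge
    linarith
  have h2 : ∀ ε : ℝ, 0 < ε → w z t ≤ η + ε := by
    intro ε hε
    have hpos : 0 < t1 - t0 := by linarith
    have h3 := key (ε / (t1 - t0)) (by positivity)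
    have h4 : ε / (t1 - t0) * (t - t0) ≤ ε := by
      rw [div_mul_eq_mul_div, div_le_iff₀ hpos]
      have : t - t0 ≤ t1 - t0 := by linarith [htt.2]
      have h0 : 0 ≤ t - t0 := by linarith [htt.1]
      nlinarith
    linarith
  exact le_of_forall_pos_le_add h2

/-- the determinant at a touching point -/
lemma det_le_of_max {u v : (Fin n → ℂ) → ℝ} {z : Fin n → ℂ} (hu : ContDiffAt ℝ 2 u z)
    (hv : ContDiffAt ℝ 2 v z) (hpu : (cHess u z).PosDef) (hm : IsLocalMax (fun y => u y - v y) z) :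
    (cHess u z).det.re ≤ (cHess v z).det.re := by
  refine Pool.Agent.H805K.det_mono_psd _ _ hpu.posSemidef ?_
  have hneg : ContDiffAt ℝ 2 (fun y => (-1 : ℝ) * u y) z := contDiffAt_const.mul hu
  have e : cHess v z - cHess u z = cHess (fun y => v y + (-1) * u y) z := by
    rw [cHess_add hv hneg, cHess_const_mul hu]
    push_cast
    rw [neg_one_smul, sub_eq_add_neg]
  rw [e, cHess_posSemidef_iff (hv.add hneg)]
  intro b
  have h1 := Pool.Agent.H940R3.Flow.lap2_nonpos_of_isLocalMax (hu.sub hv) hm b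
  have h2 : lap2 (fun y => v y + (-1) * u y) z b = - lap2 (fun y => u y - v y) z b := by
    have h3 := lap2_const_mul (u := fun y => u y - v y) (hu.sub hv) (-1) b
    rw [neg_one_mul] at h3
    rw [← h3]
    apply lap2_congr
    exact Eventually.of_forall fun y => by ring
  rw [h2]
  linarith

end Pool.Agent.TH308.LF
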