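import Pool.Agent.Helper853.FubiniStudy
import Pool.Agent.H805K.Det

set_option autoImplicit false

open scoped Topology ContDiff ComplexOrder ENNReal ComplexConjugate
open MeasureTheory Filter Pool.Agent.Helper853

namespace Pool.Agent.TH308.LF

variable {n : ℕ}

/-- `|z - a|² + ε²` (Euclidean norm) -/
noncomputable def NN (a : Fin n → ℂ) (ε : ℝ) (z : Fin n → ℂ) : ℝ := ∑ j, ‖z j - a j‖ ^ 2 + ε ^ 2

lemma NN_pos (a : Fin n → ℂ) {ε : ℝ} (hε : 0 < ε) (z : Fin n → ℂ) : 0 < NN a ε z := by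
  unfold NN
  have : 0 ≤ ∑ j, ‖z j - a j‖ ^ 2 := Finset.sum_nonneg fun _ _ => by positivity
  positivity

lemma NN_ge (a : Fin n → ℂ) (ε : ℝ) (z : Fin n → ℂ) : ε ^ 2 ≤ NN a ε z := by
  unfold NN
  have : 0 ≤ ∑ j, ‖z j - a j‖ ^ 2 := Finset.sum_nonneg fun _ _ => by positivity
  linarith

lemma NN_contDiff (a : Fin n → ℂ) (ε : ℝ) : ContDiff ℝ ∞ (NN a ε) := by
  unfold NN
  refine ContDiff.add (ContDiff.sum fun j _ => ?_) contDiff_const
  exact (((contDiff_apply ℝ ℂ j).sub contDiff_const).norm_sq ℝ)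

/-- affine rescaling -/
lemma fderiv_scale {E : Type*} [NormedAddCommGroup E] [NormedSpace ℝ E] (f : (Fin n → ℂ) → E) (a : Fin n → ℂ) (s : ℝ)
    (hf : Differentiable ℝ f) :
    fderiv ℝ (fun z => f (s • (z - a))) = fun z => s • fderiv ℝ f (s • (z - a)) := by
  ext1 z
  have h1 : HasFDerivAt (fun z : Fin n → ℂ => s • (z - a)) (s • ContinuousLinearMap.id ℝ (Fin n → ℂ)) z := by
    exact ((hasFDerivAt_id z).sub_const a).const_smul s
  have h2 := (hf (s • (z - a))).hasFDerivAt.comp z h1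
  rw [show (fun z => f (s • (z - a))) = f ∘ (fun z : Fin n → ℂ => s • (z - a)) from rfl, h2.fderiv]
  ext v
  simp

lemma cHess_scale {f : (Fin n → ℂ) → ℝ} (hf : ContDiff ℝ ∞ f) (a : Fin n → ℂ) (s : ℝ) (z : Fin n → ℂ) :
    cHess (fun z => f (s • (z - a))) z = ((s ^ 2 : ℝ) : ℂ) • cHess f (s • (z - a)) := by
  have hd : Differentiable ℝ f := hf.differentiable (by simp)
  have hf' : ContDiff ℝ ∞ (fderiv ℝ f) := hf.fderiv_right (by simp)
  have hd' : Differentiable ℝ (fderiv ℝ f) := hf'.differentiable (by simp)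
  have hg : ContDiff ℝ ∞ (fun z : Fin n → ℂ => f (s • (z - a))) := by fun_prop
  have h2 : fderiv ℝ (fderiv ℝ (fun z => f (s • (z - a)))) z =
      (s ^ 2) • fderiv ℝ (fderiv ℝ f) (s • (z - a)) := by
    rw [fderiv_scale f a s hd]
    have h3 : (fun z => s • fderiv ℝ f (s • (z - a))) = fun z => s • (fun z => fderiv ℝ f (s • (z - a))) z := rfl
    have hdc : DifferentiableAt ℝ (fun z => fderiv ℝ f (s • (z - a))) z := by
      have : Differentiable ℝ (fun z : Fin n → ℂ => fderiv ℝ f (s • (z - a))) := by fun_prop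
      exact this z
    rw [h3, fderiv_fun_const_smul hdc, fderiv_scale (fderiv ℝ f) a s hd']
    rw [smul_smul, pow_two]
  ext i j
  rw [Matrix.smul_apply, cHess_apply (hg.of_le ENat.LEInfty.out).contDiffAt,
    cHess_apply (hf.of_le ENat.LEInfty.out).contDiffAt, h2]
  simp only [_root_.smul_apply, smul_eq_mul]
  push_cast
  ring

lemma logNN_eq (a : Fin n → ℂ) {ε : ℝ} (hε : 0 < ε) (α c : ℝ) :
    (fun z => α * Real.log (NN a ε z) + c) =
      fun z => (2 * α) * (fun z => fsPot (ε⁻¹ • (z - a))) z + (α * Real.log (ε ^ 2) + c) := by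
  ext z
  unfold fsPot
  have h1 : NN a ε z = ε ^ 2 * (1 + ∑ j, ‖(ε⁻¹ • (z - a)) j‖ ^ 2) := by
    unfold NN
    have h2 : ∀ j, ‖(ε⁻¹ • (z - a)) j‖ ^ 2 = (ε ^ 2)⁻¹ * ‖z j - a j‖ ^ 2 := by
      intro j
      rw [Pi.smul_apply, Pi.sub_apply, norm_smul, mul_pow, Real.norm_of_nonneg (by positivity), inv_pow]
    simp_rw [h2]
    rw [← Finset.mul_sum]
    field_simp
    ring
  rw [h1, Real.log_mul (by positivity) (by positivity)]
  ring

lemma fsPot_contDiff : ContDiff ℝ ∞ (fsPot : (Fin n → ℂ) → ℝ) := contDiffOn_univ.1 sPsh_fsPot.1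

lemma det_logNN (a : Fin n → ℂ) {ε : ℝ} (hε : 0 < ε) (α c : ℝ) (z : Fin n → ℂ) :
    (cHess (fun y => α * Real.log (NN a ε y) + c) z).det.re =
      α ^ n * (ε ^ 2 * ((NN a ε z)⁻¹) ^ (n + 1)) := by
  have hs : ContDiff ℝ ∞ (fun z : Fin n → ℂ => fsPot (ε⁻¹ • (z - a))) := by
    have := fsPot_contDiff (n := n)
    fun_prop
  rw [logNN_eq a hε, cHess_add_const, cHess_const_mul (hs.of_le ENat.LEInfty.out).contDiffAt,
    cHess_scale fsPot_contDiff, smul_smul, Matrix.det_smul, det_cHess_fsPot, Fintype.card_fin]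
  have h1 : NN a ε z = ε ^ 2 * sN (ε⁻¹ • (z - a)) := by
    unfold NN sN
    have h2 : ∀ j, ‖(ε⁻¹ • (z - a)) j‖ ^ 2 = (ε ^ 2)⁻¹ * ‖z j - a j‖ ^ 2 := by
      intro j
      rw [Pi.smul_apply, Pi.sub_apply, norm_smul, mul_pow, Real.norm_of_nonneg (by positivity), inv_pow]
    simp_rw [h2]
    rw [← Finset.mul_sum]
    field_simp
    ring
  rw [h1]
  have h3 : (((2 * α : ℝ) : ℂ) * ((((ε⁻¹ : ℝ)) ^ 2 : ℝ) : ℂ)) ^ n *
      ((((1 / 2) ^ n * ((sN (ε⁻¹ • (z - a)))⁻¹) ^ (n + 1) : ℝ)) : ℂ) =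
      (((2 * α * (ε⁻¹) ^ 2) ^ n * ((1 / 2) ^ n * ((sN (ε⁻¹ • (z - a)))⁻¹) ^ (n + 1)) : ℝ) : ℂ) := by
    push_cast
    ring
  rw [h3, Complex.ofReal_re]
  have hne : sN (ε⁻¹ • (z - a)) ≠ 0 := (sN_pos _).ne'
  rw [mul_inv, mul_pow (ε ^ 2)⁻¹, pow_succ ((ε ^ 2)⁻¹) n]
  have e1 : (2 * α * (ε⁻¹) ^ 2) ^ n * (1 / 2) ^ n = α ^ n * ((ε ^ 2)⁻¹) ^ n := by
    rw [← mul_pow, ← mul_pow]
    congr 1
    rw [inv_pow]
    ring
  rw [← mul_assoc, e1]
  field_simp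

lemma logNN_contDiff (a : Fin n → ℂ) {ε : ℝ} (hε : 0 < ε) (α c : ℝ) :
    ContDiff ℝ ∞ (fun y => α * Real.log (NN a ε y) + c) := by
  rw [logNN_eq a hε]
  have := fsPot_contDiff (n := n)
  fun_prop

end Pool.Agent.TH308.LF
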