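import Pool.Agent.TH308.LF.Comp

set_option autoImplicit false
set_option maxHeartbeats 4000000

open scoped Topology ContDiff ComplexOrder ENNReal ComplexConjugate
open MeasureTheory Filter Metric Set Pool.Agent.Helper853

namespace Pool.Agent.TH308.LF

variable {n : ℕ}

lemma lap2_pos_of_posDef {u : (Fin n → ℂ) → ℝ} {x : Fin n → ℂ} (hu : ContDiffAt ℝ 2 u x)
    (h : (cHess u x).PosDef) (b : Fin n → ℂ) (hb : b ≠ 0) : 0 < lap2 u x b := by
  have hb' : star b ≠ 0 := by
    intro h0
    exact hb (star_eq_zero.mp h0)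
  have h1 := h.dotProduct_mulVec_pos hb'
  rw [cHess_quadForm hu, star_star] at h1
  have h2 : (0 : ℝ) < 1 / 4 * lap2 u x b := by exact_mod_cast h1
  linarith

lemma dist_sq_le (z a : Fin n → ℂ) : dist z a ^ 2 ≤ ∑ j, ‖z j - a j‖ ^ 2 := by
  rw [dist_eq_norm]
  by_cases hn : 0 < ‖z - a‖
  · have h2 : ∃ j, ‖(z - a) j‖ = ‖z - a‖ := by
      by_contra hcon
      push Not at hcon
      have h3 : ∀ j, ‖(z - a) j‖ < ‖z - a‖ := fun j => lt_of_le_of_ne (norm_le_pi_norm (z - a) j) (hcon j)
      exact absurd ((pi_norm_lt_iff hn).mpr h3) (lt_irrefl _)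
    obtain ⟨j, hj⟩ := h2
    rw [← hj]
    exact Finset.single_le_sum (f := fun j => ‖z j - a j‖ ^ 2) (fun i _ => by positivity) (Finset.mem_univ j)
  · have : ‖z - a‖ = 0 := le_antisymm (not_lt.mp hn) (norm_nonneg _)
    rw [this]
    have : 0 ≤ ∑ j, ‖z j - a j‖ ^ 2 := Finset.sum_nonneg fun _ _ => by positivity
    simpa using this

/-- there is no solution with a positive Lelong number in the initial datum -/
theorem no_solution (hn : 1 ≤ n) {Ω : Set (Fin n → ℂ)} (hΩ : IsOpen Ω) (hbd : Bornology.IsBounded Ω)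
    {T : ℝ} (hT : 0 < T) {u : (Fin n → ℂ) → ℝ → ℝ} {u₀ : (Fin n → ℂ) → EReal}
    (h1 : ContDiffOn ℝ 2 (fun p : (Fin n → ℂ) × ℝ => u p.1 p.2) (Ω ×ˢ Ioo 0 T))
    (h2 : ContinuousOn (fun p : (Fin n → ℂ) × ℝ => u p.1 p.2) (closure Ω ×ˢ Ioo 0 T))
    (h3 : ∀ t ∈ Ioo 0 T, ∀ z ∈ Ω, (cHess (fun w => u w t) z).PosDef)
    (h4 : ∀ t ∈ Ioo 0 T, ∀ z ∈ Ω, deriv (fun s => u z s) t = Real.log (cHess (fun w => u w t) z).det.re)
    {M : ℝ} (h5 : ∀ t ∈ Ioo 0 T, ∀ z ∈ frontier Ω, u z t ≤ M)
    (h6 : ∀ z ∈ Ω, Tendsto (fun t => (u z t : EReal)) (𝓝[>] 0) (𝓝 (u₀ z)))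
    {a : Fin n → ℂ} (ha : a ∈ Ω) {γ C r : ℝ} (hγ : 0 < γ) (hr : 0 < r)
    (h7 : ∀ z, z ≠ a → dist z a < r → u₀ z ≤ ((γ * Real.log (dist z a) + C : ℝ) : EReal)) : False := by
  have : Nonempty (Fin n) := ⟨⟨0, hn⟩⟩
  have hop : IsOpen (Ω ×ˢ Ioo 0 T) := hΩ.prod isOpen_Ioo
  -- regularity in space and in time
  have hsp : ∀ t ∈ Ioo 0 T, ∀ z ∈ Ω, ContDiffAt ℝ 2 (fun w => u w t) z := by
    intro t ht z hz
    have hx : ContDiffAt ℝ 2 (fun p : (Fin n → ℂ) × ℝ => u p.1 p.2) (z, t) :=
      h1.contDiffAt (hop.mem_nhds ⟨hz, ht⟩)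
    have hg : ContDiffAt ℝ 2 (fun w : Fin n → ℂ => (w, t)) z := by fun_prop
    exact hx.comp z hg
  have htm : ∀ t ∈ Ioo 0 T, ∀ z ∈ Ω, HasDerivAt (fun s => u z s)
      (Real.log (cHess (fun w => u w t) z).det.re) t := by
    intro t ht z hz
    rw [← h4 t ht z hz]
    have hx : ContDiffAt ℝ 2 (fun p : (Fin n → ℂ) × ℝ => u p.1 p.2) (z, t) :=
      h1.contDiffAt (hop.mem_nhds ⟨hz, ht⟩)
    have hg : ContDiffAt ℝ 2 (fun s : ℝ => (z, s)) t := by fun_prop
    have : ContDiffAt ℝ 2 (fun s : ℝ => u z s) t := hx.comp t hg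
    exact (this.differentiableAt (by norm_num)).hasDerivAt
  have hlp : ∀ t ∈ Ioo 0 T, ∀ z ∈ Ω, ∀ b, b ≠ 0 → 0 < lap2 (fun w => u w t) z b := fun t ht z hz b hb =>
    lap2_pos_of_posDef (hsp t ht z hz) (h3 t ht z hz) b hb
  -- global upper bound
  have hub : ∀ t ∈ Ioo 0 T, ∀ z ∈ closure Ω, u z t ≤ M := by
    intro t ht z hz
    refine Pool.Agent.H940R3.Flow.le_of_boundary hΩ hbd hn (g := fun w => u w t) ?_ (hsp t ht) (hlp t ht)
      (h5 t ht) hz
    have hg : ContinuousOn (fun w : Fin n → ℂ => (w, t)) (closure Ω) := by fun_prop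
    exact h2.comp hg fun w hw => ⟨hw, ht⟩
  -- the ball
  obtain ⟨ρ, hρ, hρΩ⟩ := Metric.isOpen_iff.mp hΩ a ha
  obtain ⟨R, hR, hRr, hRΩ⟩ : ∃ R : ℝ, 0 < R ∧ 2 * R < r ∧ closedBall a (2 * R) ⊆ Ω := by
    refine ⟨min ρ r / 3, by positivity, ?_, ?_⟩
    · have := min_le_right ρ r
      linarith
    · refine (closedBall_subset_ball ?_).trans hρΩ
      have := min_le_left ρ r
      linarith
  have hRΩ' : closedBall a R ⊆ Ω := (closedBall_subset_closedBall (by linarith)).trans hRΩ
  set c : ℝ := γ / 2 with hc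
  have hcpos : 0 < c := by positivity
  have hnpos : (0 : ℝ) < n := by exact_mod_cast hn
  set t1 : ℝ := min (T / 2) (c / (2 * n)) with ht1
  have ht1pos : 0 < t1 := by positivity
  have ht1T : t1 < T := lt_of_le_of_lt (min_le_left _ _) (by linarith)
  have ht1c : (n : ℝ) * t1 ≤ c / 2 := by
    have : t1 ≤ c / (2 * n) := min_le_right _ _
    calc (n : ℝ) * t1 ≤ n * (c / (2 * n)) := by gcongr
      _ = c / 2 := by field_simp
  set B : ℝ := n * Real.log c with hB
  set C0 : ℝ := max C (M + c * |Real.log (R ^ 2)| + |B| * t1) with hC0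
  -- the main estimate
  have main : ∀ ε : ℝ, 0 < ε → ε < 1 → u a t1 ≤ c / 2 * Real.log (ε ^ 2) + B * t1 + C0 + 1 := by
    intro ε hε hε1
    set v : (Fin n → ℂ) → ℝ → ℝ := fun z t => (c - n * t) * Real.log (NN a ε z) + (B * t + C0) with hv
    have hNc : Continuous (fun z => Real.log (NN a ε z)) :=
      ((NN_contDiff a ε).continuous).log fun z => (NN_pos a hε z).ne'
    set f : (Fin n → ℂ) → ℝ := fun z => c * Real.log (NN a ε z) + C0 with hf
    have hfc : Continuous f := by fun_prop
    -- Hartogs
    have hH := Pool.Agent.H940R3.Flow.hartogs (u := u) (a := a) (R := R) (T := T) (M := M) hR hT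
      (fun t ht x hx => hsp t ht x (hRΩ hx))
      (fun t ht x hx b => by
        by_cases hb : b = 0
        · subst hb
          unfold lap2
          simp
        · exact (hlp t ht x (hRΩ hx) b hb).le)
      (fun t ht x hx => hub t ht x (subset_closure (hRΩ hx))) hfc
      (by
        have hnull : ∀ᵐ x ∂(volume.restrict (closedBall a (2 * R))), x ≠ a := by
          apply ae_restrict_of_ae
          rw [ae_iff]
          simp
        filter_upwards [hnull, ae_restrict_mem isClosed_closedBall.measurableSet] with x hxa hx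
        intro δ hδ
        have hxd : 0 < dist x a := dist_pos.mpr hxa
        have hx1 : dist x a < r := lt_of_le_of_lt (mem_closedBall.mp hx) hRr
        have hle := h7 x hxa hx1
        have hle2 : γ * Real.log (dist x a) + C ≤ f x := by
          simp only [hf]
          have e1 : γ * Real.log (dist x a) = c * Real.log (dist x a ^ 2) := by
            rw [Real.log_pow, hc]
            push_cast
            ring
          rw [e1]
          have e2 : Real.log (dist x a ^ 2) ≤ Real.log (NN a ε x) := by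
            apply Real.log_le_log (by positivity)
            have := dist_sq_le x a
            unfold NN
            nlinarith [sq_nonneg ε]
          have e3 : C ≤ C0 := le_max_left _ _
          have := mul_le_mul_of_nonneg_left e2 hcpos.le
          linarith
        have hlt : u₀ x < ((f x + δ : ℝ) : EReal) := by
          refine lt_of_le_of_lt hle ?_
          exact_mod_cast (by linarith : γ * Real.log (dist x a) + C < f x + δ)
        have := (h6 x (hRΩ hx)).eventually (gt_mem_nhds hlt)
        filter_upwards [this] with t ht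
        exact_mod_cast ht.le)
      (η := 1 / 2) (by norm_num)
    -- the logarithm is bounded on the ball
    obtain ⟨L, hL⟩ : ∃ L : ℝ, ∀ z ∈ closedBall a R, |Real.log (NN a ε z)| ≤ L := by
      obtain ⟨L, hL⟩ := (isCompact_closedBall a R).exists_bound_of_continuousOn hNc.continuousOn
      exact ⟨L, fun z hz => hL z hz⟩
    have hL0 : 0 ≤ L := (abs_nonneg _).trans (hL a (mem_closedBall_self hR.le))
    have hsmall : ∀ᶠ t in 𝓝[>] (0 : ℝ), t * (n * L + |B|) < 1 / 2 := by
      have h : Tendsto (fun t : ℝ => t * (n * L + |B|)) (𝓝[>] 0) (𝓝 (0 * (n * L + |B|))) :=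
        ((continuous_id.mul continuous_const).tendsto 0).mono_left nhdsWithin_le_nhds
      rw [zero_mul] at h
      exact h.eventually (gt_mem_nhds (by norm_num))
    obtain ⟨t0, ht0H, ht0s, ht0⟩ := (hH.and (hsmall.and (Ioo_mem_nhdsGT ht1pos))).exists
    have hNge : ∀ z, 2 * Real.log ε ≤ Real.log (NN a ε z) := by
      intro z
      have := Real.log_le_log (by positivity) (NN_ge a ε z)
      rw [Real.log_pow] at this
      exact_mod_cast this
    have hpar := parabolic (n := n) (a := a) (R := R) (t0 := t0) (t1 := t1) (η := 1)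
      (fun z t => u z t - v z t) ht0.2 ?_ ?_ ?_ ?_ (mem_closedBall_self hR.le)
      (z := a) (t := t1) ⟨ht0.2.le, le_rfl⟩
    · have e1 : NN a ε a = ε ^ 2 := by
        unfold NN
        simp
      simp only [hv, e1] at hpar
      have hlog : Real.log (ε ^ 2) ≤ 0 := Real.log_nonpos (by positivity) (by nlinarith)
      have h8 : (c - n * t1) * Real.log (ε ^ 2) ≤ c / 2 * Real.log (ε ^ 2) := by
        apply mul_le_mul_of_nonpos_right _ hlog
        linarith
      linarith
    · apply ContinuousOn.sub
      · apply h2.mono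
        rintro ⟨z, t⟩ ⟨hz, ht⟩
        exact ⟨subset_closure (hRΩ' hz), lt_of_lt_of_le ht0.1 ht.1, lt_of_le_of_lt ht.2 ht1T⟩
      · have : Continuous (fun p : (Fin n → ℂ) × ℝ => v p.1 p.2) := by
          simp only [hv]
          have := hNc.comp (continuous_fst (X := Fin n → ℂ) (Y := ℝ))
          exact ((continuous_const.sub (continuous_const.mul continuous_snd)).mul this).add
            ((continuous_const.mul continuous_snd).add continuous_const)
        exact this.continuousOn
    · intro z hz
      have h8 := ht0H z hz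
      have h9 := hL z hz
      simp only [hf] at h8
      simp only [hv]
      have h10 : (n : ℝ) * t0 * Real.log (NN a ε z) ≤ n * t0 * L := by
        have := (abs_le.mp h9).2
        have h11 : 0 ≤ (n : ℝ) * t0 := by have := ht0.1; positivity
        exact mul_le_mul_of_nonneg_left this h11
      have h12 : -(|B| * t0) ≤ B * t0 := by
        have := neg_abs_le B
        have h13 := ht0.1.le
        nlinarith
      nlinarith
    · intro z hz t ht
      have h8 : u z t ≤ M := hub t ⟨lt_of_lt_of_le ht0.1 ht.1, lt_of_le_of_lt ht.2 ht1T⟩ z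
        (subset_closure (hRΩ' (sphere_subset_closedBall hz)))
      have hR2 : R ^ 2 ≤ NN a ε z := by
        have h9 := dist_sq_le z a
        rw [mem_sphere.mp hz] at h9
        unfold NN
        nlinarith [sq_nonneg ε]
      have h9 : Real.log (R ^ 2) ≤ Real.log (NN a ε z) := Real.log_le_log (by positivity) hR2
      have h10 : 0 ≤ c - n * t := by
        have : (n : ℝ) * t ≤ n * t1 := by
          apply mul_le_mul_of_nonneg_left ht.2 hnpos.le
        linarith
      have h11 : c - n * t ≤ c := by
        have : 0 ≤ (n : ℝ) * t := by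
          have := lt_of_lt_of_le ht0.1 ht.1
          positivity
        linarith
      have h12 : (c - n * t) * Real.log (R ^ 2) ≤ (c - n * t) * Real.log (NN a ε z) :=
        mul_le_mul_of_nonneg_left h9 h10
      have h13 : -(c * |Real.log (R ^ 2)|) ≤ (c - n * t) * Real.log (R ^ 2) := by
        have e1 := neg_abs_le (Real.log (R ^ 2))
        have e2 := abs_nonneg (Real.log (R ^ 2))
        nlinarith
      have h14 : -(|B| * t1) ≤ B * t := by
        have e1 := neg_abs_le B
        have e2 := abs_nonneg B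
        have e3 : 0 ≤ t := (ht0.1.le).trans ht.1
        have e4 := ht.2
        nlinarith
      have h15 : M + c * |Real.log (R ^ 2)| + |B| * t1 ≤ C0 := le_max_right _ _
      simp only [hv]
      linarith
    · intro z hz t ht hmax
      have htT : t ∈ Ioo 0 T := ⟨lt_trans ht0.1 ht.1, lt_of_le_of_lt ht.2 ht1T⟩
      have hzΩ : z ∈ Ω := hRΩ' (ball_subset_closedBall hz)
      have hdu := htm t htT z hzΩ
      have hdv : HasDerivAt (fun s => v z s) (-(n : ℝ) * Real.log (NN a ε z) + B) t := by
        simp only [hv]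
        have e1 : HasDerivAt (fun s : ℝ => c - n * s) (-(n : ℝ)) t := by
          simpa using ((hasDerivAt_id t).const_mul (n : ℝ)).const_sub c
        have e2 : HasDerivAt (fun s : ℝ => B * s + C0) B t := by
          simpa using ((hasDerivAt_id t).const_mul B).add_const C0
        exact (e1.mul_const _).add e2
      refine ⟨_, hdu.sub hdv, ?_⟩
      have hcv : ContDiffAt ℝ 2 (fun y => v y t) z :=
        ((logNN_contDiff a hε (c - n * t) (B * t + C0)).of_le ENat.LEInfty.out).contDiffAt
      have hdet := det_le_of_max (hsp t htT z hzΩ) hcv (h3 t htT z hzΩ) hmax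
      have hdpos : 0 < (cHess (fun w => u w t) z).det.re := by
        have := (h3 t htT z hzΩ).det_pos
        exact (Complex.pos_iff.mp this).1
      have hvdet : (cHess (fun y => v y t) z).det.re =
          (c - n * t) ^ n * (ε ^ 2 * ((NN a ε z)⁻¹) ^ (n + 1)) := det_logNN a hε (c - n * t) (B * t + C0) z
      rw [hvdet] at hdet
      have hcn : 0 < c - n * t := by
        have : (n : ℝ) * t ≤ n * t1 := mul_le_mul_of_nonneg_left ht.2 hnpos.le
        linarith
      have hcn2 : c - n * t ≤ c := by
        have : 0 ≤ (n : ℝ) * t := by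
          have := htT.1
          positivity
        linarith
      have hN := NN_pos a hε z
      have hlog := Real.log_le_log hdpos hdet
      rw [Real.log_mul (by positivity) (by positivity), Real.log_mul (by positivity) (by positivity),
        Real.log_pow, Real.log_pow, Real.log_pow, Real.log_inv] at hlog
      push_cast at hlog
      have hlc : Real.log (c - n * t) ≤ Real.log c := Real.log_le_log hcn hcn2
      have hlc2 : (n : ℝ) * Real.log (c - n * t) ≤ B := mul_le_mul_of_nonneg_left hlc hnpos.le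
      have h16 := hNge z
      linarith
  -- conclusion
  set K : ℝ := |u a t1| + |B * t1| + |C0| + 2 with hK
  have hKpos : 0 < K := by positivity
  have h8 := main (Real.exp (-(K / c))) (Real.exp_pos _) (by
    rw [Real.exp_lt_one_iff]
    have : 0 < K / c := by positivity
    linarith)
  rw [Real.log_pow, Real.log_exp] at h8
  have e1 : c / 2 * (((2 : ℕ) : ℝ) * -(K / c)) = -K := by
    push_cast
    field_simp
  rw [e1] at h8
  have e2 := neg_abs_le (u a t1)
  have e3 := le_abs_self (B * t1)
  have e4 := le_abs_self C0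
  linarith

end Pool.Agent.TH308.LF
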