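import Pool.Agent.TH308.LF.Main
import Pool.Agent.Helper853.Submean

set_option autoImplicit false
set_option maxHeartbeats 4000000

open scoped Topology ContDiff ComplexOrder ENNReal ComplexConjugate
open MeasureTheory Filter Metric Set Pool.Agent.Helper853

namespace Pool.Agent.TH308.LF

variable {n : ℕ}

lemma posDef_of_lap2_pos {u : (Fin n → ℂ) → ℝ} {x : Fin n → ℂ} (hu : ContDiffAt ℝ 2 u x)
    (h : ∀ b, b ≠ 0 → 0 < lap2 u x b) : (cHess u x).PosDef := by
  refine Matrix.PosDef.of_dotProduct_mulVec_pos (cHess_isHermitian hu) ?_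
  intro v hv
  rw [cHess_quadForm hu]
  have hv' : star v ≠ 0 := fun h0 => hv (star_eq_zero.mp h0)
  have := h (star v) hv'
  exact_mod_cast (by linarith : (0 : ℝ) < 1 / 4 * lap2 u x (star v))

lemma NN_sumSq (a : Fin n → ℂ) (ε : ℝ) (z : Fin n → ℂ) :
    NN a ε z = sumSq (ι := Option (Fin n)) (fun o w => o.elim (ε : ℂ) (fun j => w j - a j)) z := by
  unfold NN sumSq
  rw [Fintype.sum_option]
  simp [add_comm]

lemma subMean_logNN (a : Fin n → ℂ) {ε : ℝ} (hε : 0 < ε) :
    SubMean fun z => 1 / 2 * Real.log (NN a ε z) := by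
  have h := subMean_log_sumSq (n := n) (ι := Option (Fin n))
    (F := fun o w => o.elim (ε : ℂ) (fun j => w j - a j))
    (fun o => by
      cases o with
      | none => exact contDiff_const
      | some j => simp only [Option.elim_some]; fun_prop)
    (fun x => by rw [← NN_sumSq]; exact NN_pos a hε x) (c := 1 / 2) (by norm_num)
  simp_rw [← NN_sumSq] at h
  exact h

/-- `log |z - a|` (Euclidean norm), with the value `-∞` at `a` -/
noncomputable def logNorm (a z : Fin n → ℂ) : EReal :=
  if z = a then ⊥ else ((1 / 2 * Real.log (∑ j, ‖z j - a j‖ ^ 2) : ℝ) : EReal)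

lemma sum_pos_of_ne {a z : Fin n → ℂ} (h : z ≠ a) : 0 < ∑ j, ‖z j - a j‖ ^ 2 := by
  have := dist_sq_le z a
  have h2 : 0 < dist z a := dist_pos.mpr h
  have : 0 < dist z a ^ 2 := by positivity
  linarith

lemma isPsh_logNorm (a : Fin n → ℂ) : IsPsh (logNorm a) := by
  have h := isPsh_iInf (n := n) (w := fun (k : ℕ) z => 1 / 2 * Real.log (NN a (1 / ((k : ℝ) + 1)) z))
    (fun k => by
      have : Continuous (fun z => Real.log (NN a (1 / ((k : ℝ) + 1)) z)) :=
        ((NN_contDiff a _).continuous).log fun z => (NN_pos a (by positivity) z).ne'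
      fun_prop)
    (fun z => by
      intro k l hkl
      have h1 : (1 : ℝ) / ((l : ℝ) + 1) ≤ 1 / ((k : ℝ) + 1) := by
        apply one_div_le_one_div_of_le (by positivity)
        have : (k : ℝ) ≤ l := by exact_mod_cast hkl
        linarith
      have h2 : NN a (1 / ((l : ℝ) + 1)) z ≤ NN a (1 / ((k : ℝ) + 1)) z := by
        unfold NN
        have h3 : (0 : ℝ) ≤ 1 / ((l : ℝ) + 1) := by positivity
        have := pow_le_pow_left₀ h3 h1 2
        linarith
      have h3 := Real.log_le_log (NN_pos a (by positivity) z) h2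
      simp only
      linarith)
    (fun k => subMean_logNN a (by positivity))
  have e : logNorm a = fun z => ⨅ k : ℕ, ((1 / 2 * Real.log (NN a (1 / ((k : ℝ) + 1)) z) : ℝ) : EReal) := by
    ext1 z
    unfold logNorm
    have hlim : Tendsto (fun k : ℕ => (1 : ℝ) / ((k : ℝ) + 1)) atTop (𝓝 0) :=
      tendsto_one_div_add_atTop_nhds_zero_nat
    split_ifs with hz
    · subst hz
      symm
      rw [iInf_eq_bot]
      intro b hb
      obtain ⟨y, hy⟩ : ∃ y : ℝ, (y : EReal) < b := by
        obtain ⟨y, hy1, hy2⟩ := EReal.lt_iff_exists_real_btwn.mp hb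
        exact ⟨y, hy2⟩
      have h1 : Tendsto (fun k : ℕ => Real.log ((1 : ℝ) / ((k : ℝ) + 1))) atTop atBot := by
        have h2 : Tendsto (fun k : ℕ => (1 : ℝ) / ((k : ℝ) + 1)) atTop (𝓝[>] 0) :=
          tendsto_nhdsWithin_iff.mpr ⟨hlim, Eventually.of_forall fun k => by
            show (0 : ℝ) < 1 / ((k : ℝ) + 1)
            positivity⟩
        exact Real.tendsto_log_nhdsGT_zero.comp h2
      obtain ⟨k, hk⟩ := (h1.eventually (eventually_lt_atBot y)).exists
      refine ⟨k, lt_of_lt_of_le ?_ hy.le⟩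
      have e1 : NN z (1 / ((k : ℝ) + 1)) z = (1 / ((k : ℝ) + 1)) ^ 2 := by
        unfold NN; simp
      rw [e1, Real.log_pow]
      exact_mod_cast (by push_cast; linarith : 1 / 2 * (((2 : ℕ) : ℝ) * Real.log (1 / ((k : ℝ) + 1))) < y)
    · have hpos := sum_pos_of_ne hz
      have hle : ∀ k : ℕ, ((1 / 2 * Real.log (∑ j, ‖z j - a j‖ ^ 2) : ℝ) : EReal) ≤
          ((1 / 2 * Real.log (NN a (1 / ((k : ℝ) + 1)) z) : ℝ) : EReal) := by
        intro k
        have h2 : Real.log (∑ j, ‖z j - a j‖ ^ 2) ≤ Real.log (NN a (1 / ((k : ℝ) + 1)) z) := by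
          apply Real.log_le_log hpos
          unfold NN
          have : (0 : ℝ) ≤ (1 / ((k : ℝ) + 1)) ^ 2 := by positivity
          linarith
        exact EReal.coe_le_coe_iff.mpr (by linarith)
      apply le_antisymm (le_iInf hle)
      have h1 : Tendsto (fun k : ℕ => 1 / 2 * Real.log (NN a (1 / ((k : ℝ) + 1)) z)) atTop
          (𝓝 (1 / 2 * Real.log (∑ j, ‖z j - a j‖ ^ 2))) := by
        have h2 : Tendsto (fun k : ℕ => NN a (1 / ((k : ℝ) + 1)) z) atTop (𝓝 (∑ j, ‖z j - a j‖ ^ 2)) := by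
          unfold NN
          have h3 := (hlim.pow 2).const_add (∑ j, ‖z j - a j‖ ^ 2)
          simpa using h3
        exact (h2.log hpos.ne').const_mul _
      have h2 := (continuous_coe_real_ereal.tendsto _).comp h1
      exact ge_of_tendsto' h2 fun k => iInf_le _ k
  rw [e]
  exact h

/-- near `a` the function `log |z - a|` has Lelong number one -/
lemma logNorm_le (hn : 1 ≤ n) (a z : Fin n → ℂ) (hz : z ≠ a) :
    logNorm a z ≤ ((1 * Real.log (dist z a) + 1 / 2 * Real.log n : ℝ) : EReal) := by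
  unfold logNorm
  rw [if_neg hz]
  have hd : 0 < dist z a := dist_pos.mpr hz
  have hn' : (0 : ℝ) < n := by exact_mod_cast hn
  have h1 : ∑ j, ‖z j - a j‖ ^ 2 ≤ n * dist z a ^ 2 := by
    calc ∑ j, ‖z j - a j‖ ^ 2 ≤ ∑ _j : Fin n, dist z a ^ 2 := by
          apply Finset.sum_le_sum
          intro j _
          have : ‖(z - a) j‖ ≤ ‖z - a‖ := norm_le_pi_norm (z - a) j
          rw [dist_eq_norm]
          exact pow_le_pow_left₀ (norm_nonneg _) this 2
      _ = n * dist z a ^ 2 := by simp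
  have h2 := Real.log_le_log (sum_pos_of_ne hz) h1
  rw [Real.log_mul hn'.ne' (by positivity), Real.log_pow] at h2
  push_cast at h2
  exact_mod_cast (by linarith : 1 / 2 * Real.log (∑ j, ‖z j - a j‖ ^ 2) ≤
    1 * Real.log (dist z a) + 1 / 2 * Real.log n)

end Pool.Agent.TH308.LF
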